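import Mathlib.Order.WellFounded
import Mathlib.Order.Interval.Set.Basic
import Mathlib.Data.Set.Finite.Basic
import Mathlib.Data.Set.Countable
import Mathlib.Data.List.Basic
import Mathlib.Data.List.GetD
import Mathlib.Tactic.Common

/-!
# Codes for conditions of a Hechler-type forcing over a well-founded index set

A condition assigns to finitely many indices `b` a finite sequence of natural numbers (a stem) and
finitely many names for functions `ℕ → ℕ`. A name at `b` is a double sequence `(c i j, v i j)`,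
where `c i j` is a condition living below `b`, and `v i j` is the value at `i` decided by `c i j`.
-/

set_option linter.unusedSectionVars false
set_option linter.unusedVariables false

namespace Pool.Agent.Hechler

universe u

/-- raw conditions -/
inductive Code (Q : Type u) : Type u
  | nil : Code Q
  | mk (s : Q → List ℕ) (k : Q → ℕ) (F : Q → ℕ → ℕ → ℕ → Code Q) (v : Q → ℕ → ℕ → ℕ → ℕ) : Code Q

namespace Code

variable {Q : Type u}

/-- stems -/
def s : Code Q → Q → List ℕ
  | nil => fun _ => []
  | mk s _ _ _ => s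

/-- number of names -/
def k : Code Q → Q → ℕ
  | nil => fun _ => 0
  | mk _ k _ _ => k

/-- conditions of the names -/
def F : Code Q → Q → ℕ → ℕ → ℕ → Code Q
  | nil => fun _ _ _ _ => nil
  | mk _ _ F _ => F

/-- values of the names -/
def v : Code Q → Q → ℕ → ℕ → ℕ → ℕ
  | nil => fun _ _ _ _ => 0
  | mk _ _ _ v => v

@[simp] lemma s_mk (s : Q → List ℕ) (k F v) : (mk s k F v).s = s := rfl
@[simp] lemma k_mk (s : Q → List ℕ) (k F v) : (mk s k F v).k = k := rfl
@[simp] lemma F_mk (s : Q → List ℕ) (k F v) : (mk s k F v).F = F := rfl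
@[simp] lemma v_mk (s : Q → List ℕ) (k F v) : (mk s k F v).v = v := rfl
@[simp] lemma s_nil : (nil : Code Q).s = fun _ => [] := rfl
@[simp] lemma k_nil : (nil : Code Q).k = fun _ => 0 := rfl
@[simp] lemma F_nil : (nil : Code Q).F = fun _ _ _ _ => nil := rfl
@[simp] lemma v_nil : (nil : Code Q).v = fun _ _ _ _ => 0 := rfl

open Classical in
/-- restriction of a condition to a set of indices -/
noncomputable def restr (A : Set Q) (p : Code Q) : Code Q :=
  mk (fun c => if c ∈ A then p.s c else []) (fun c => if c ∈ A then p.k c else 0)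
    (fun c => if c ∈ A then p.F c else fun _ _ _ => nil)
    (fun c => if c ∈ A then p.v c else fun _ _ _ => 0)

section restr
variable {A B : Set Q} {p : Code Q} {c : Q}

lemma restr_s (h : c ∈ A) : (restr A p).s c = p.s c := if_pos h
lemma restr_s' (h : c ∉ A) : (restr A p).s c = [] := if_neg h
lemma restr_k (h : c ∈ A) : (restr A p).k c = p.k c := if_pos h
lemma restr_k' (h : c ∉ A) : (restr A p).k c = 0 := if_neg h
lemma restr_F (h : c ∈ A) : (restr A p).F c = p.F c := if_pos h
lemma restr_F' (h : c ∉ A) : (restr A p).F c = fun _ _ _ => nil := if_neg h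
lemma restr_v (h : c ∈ A) : (restr A p).v c = p.v c := if_pos h
lemma restr_v' (h : c ∉ A) : (restr A p).v c = fun _ _ _ => 0 := if_neg h

/-- `restr` only depends on the values on `A` -/
lemma restr_congr {p q : Code Q} (hs : ∀ c ∈ A, p.s c = q.s c) (hk : ∀ c ∈ A, p.k c = q.k c)
    (hF : ∀ c ∈ A, p.F c = q.F c) (hv : ∀ c ∈ A, p.v c = q.v c) : restr A p = restr A q := by
  unfold restr
  congr 1 <;> funext c <;> by_cases h : c ∈ A
  · rw [if_pos h, if_pos h, hs c h]
  · rw [if_neg h, if_neg h]
  · rw [if_pos h, if_pos h, hk c h]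
  · rw [if_neg h, if_neg h]
  · rw [if_pos h, if_pos h, hF c h]
  · rw [if_neg h, if_neg h]
  · rw [if_pos h, if_pos h, hv c h]
  · rw [if_neg h, if_neg h]

lemma restr_restr (h : A ⊆ B) : restr A (restr B p) = restr A p :=
  restr_congr (fun _ hc => restr_s (h hc)) (fun _ hc => restr_k (h hc))
    (fun _ hc => restr_F (h hc)) (fun _ hc => restr_v (h hc))

end restr

variable [Preorder Q]

/-- `Le p q`: the raw condition `q` is stronger than `p`. -/
def Le : Code Q → Code Q → Prop
  | nil => fun _ => True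
  | mk s k F v => fun q => ∀ b, s b <+: q.s b ∧
      (∀ m < k b, ∃ m' < q.k b, q.F b m' = F b m ∧ q.v b m' = v b m) ∧
      ∀ m < k b, ∀ i, (s b).length ≤ i → i < (q.s b).length →
        ∃ j, Le (F b m i j) (restr (Set.Iio b) q) ∧ v b m i j ≤ (q.s b).getD i 0

lemma le_def (p q : Code Q) : Le p q ↔ ∀ b, p.s b <+: q.s b ∧
      (∀ m < p.k b, ∃ m' < q.k b, q.F b m' = p.F b m ∧ q.v b m' = p.v b m) ∧
      ∀ m < p.k b, ∀ i, (p.s b).length ≤ i → i < (q.s b).length →
        ∃ j, Le (p.F b m i j) (restr (Set.Iio b) q) ∧ p.v b m i j ≤ (q.s b).getD i 0 := by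
  cases p with
  | nil => simp [Le]
  | mk s k F v => rfl

lemma le_nil (q : Code Q) : Le nil q := trivial

lemma le_rf (p : Code Q) : Le p p := by
  rw [le_def]
  exact fun b => ⟨List.prefix_rfl, fun m hm => ⟨m, hm, rfl, rfl⟩, fun m _ i h1 h2 => by omega⟩

/-- restriction to down-closed sets is monotone -/
lemma restr_mono {A : Set Q} (hA : ∀ b ∈ A, Set.Iio b ⊆ A) {p q : Code Q} (h : Le p q) :
    Le (restr A p) (restr A q) := by
  rw [le_def] at h ⊢
  intro b
  by_cases hb : b ∈ A
  · rw [restr_s hb, restr_k hb, restr_F hb, restr_v hb, restr_s hb, restr_k hb, restr_F hb,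
      restr_v hb, restr_restr (hA b hb)]
    exact h b
  · rw [restr_s' hb, restr_k' hb]
    exact ⟨List.nil_prefix, fun m hm => by omega, fun m hm => by omega⟩

lemma getD_of_prefix {l l' : List ℕ} (h : l <+: l') {i : ℕ} (hi : i < l.length) :
    l'.getD i 0 = l.getD i 0 := by
  obtain ⟨t, rfl⟩ := h
  rw [List.getD_append _ _ _ _ hi]

lemma isDown_Iio (b : Q) : ∀ c ∈ Set.Iio b, Set.Iio c ⊆ Set.Iio b :=
  fun _ hc _ hd => lt_trans hd hc

lemma le_tr {p q r : Code Q} (h1 : Le p q) (h2 : Le q r) : Le p r := by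
  induction p generalizing q r with
  | nil => exact le_nil _
  | mk s k F v ih =>
    rw [le_def] at h1 ⊢
    have h2' := h2
    rw [le_def] at h2
    intro b
    refine ⟨(h1 b).1.trans (h2 b).1, ?_, ?_⟩
    · intro m hm
      obtain ⟨m', hm', e1, e2⟩ := (h1 b).2.1 m hm
      obtain ⟨m'', hm'', e3, e4⟩ := (h2 b).2.1 m' hm'
      exact ⟨m'', hm'', e3.trans e1, e4.trans e2⟩
    · intro m hm i hi1 hi2
      by_cases hi : i < (q.s b).length
      · obtain ⟨j, hj1, hj2⟩ := (h1 b).2.2 m hm i hi1 hi
        refine ⟨j, ih b m i j hj1 (restr_mono (isDown_Iio b) h2'), ?_⟩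
        rw [getD_of_prefix (h2 b).1 hi]
        exact hj2
      · obtain ⟨m', hm', e1, e2⟩ := (h1 b).2.1 m hm
        obtain ⟨j, hj1, hj2⟩ := (h2 b).2.2 m' hm' i (by omega) hi2
        rw [e1] at hj1
        rw [e2] at hj2
        exact ⟨j, hj1, hj2⟩

/-- a condition is stronger than its restrictions to down-closed sets -/
lemma restr_le {A : Set Q} (p : Code Q) : Le (restr A p) p := by
  rw [le_def]
  intro b
  by_cases hb : b ∈ A
  · rw [restr_s hb, restr_k hb, restr_F hb, restr_v hb]
    exact ⟨List.prefix_rfl, fun m hm => ⟨m, hm, rfl, rfl⟩, fun m _ i h1 h2 => by omega⟩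
  · rw [restr_s' hb, restr_k' hb]
    exact ⟨List.nil_prefix, fun m hm => by omega, fun m hm => by omega⟩

/-- the support of a condition -/
def supp (p : Code Q) : Set Q := {b | p.s b ≠ [] ∨ p.k b ≠ 0}

/-- a name (double sequence of conditions with values) listed at `b` is good, relative to a notion
of condition below `b` -/
def GoodAt (W : Code Q → Prop) (c : ℕ → ℕ → Code Q) : Prop :=
  ∀ i, (∀ j, W (c i j)) ∧ ∀ d, W d → ∃ j e, W e ∧ Le d e ∧ Le (c i j) e

/-- normal form: no junk beyond the listed names -/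
def Normal (p : Code Q) : Prop :=
  ∀ c m, p.k c ≤ m → p.F c m = (fun _ _ => nil) ∧ p.v c m = fun _ _ => 0

variable [WellFoundedLT Q]

/-- `VB b p`: `p` is a condition with support below `b`. -/
def VB : Q → Code Q → Prop :=
  (wellFounded_lt (α := Q)).fix fun b ih p => (supp p).Finite ∧ supp p ⊆ Set.Iio b ∧ Normal p ∧
    ∀ c (h : c < b), ∀ m < p.k c, GoodAt (ih c h) (p.F c m)

lemma VB_def (b : Q) (p : Code Q) : VB b p ↔ (supp p).Finite ∧ supp p ⊆ Set.Iio b ∧ Normal p ∧
    ∀ c < b, ∀ m < p.k c, GoodAt (VB c) (p.F c m) := by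
  unfold VB
  rw [WellFounded.fix_eq]

/-- `Valid p`: `p` is a condition. -/
def Valid (p : Code Q) : Prop :=
  (supp p).Finite ∧ Normal p ∧ ∀ c, ∀ m < p.k c, GoodAt (VB c) (p.F c m)

lemma VB_iff {b : Q} {p : Code Q} : VB b p ↔ Valid p ∧ supp p ⊆ Set.Iio b := by
  rw [VB_def]
  constructor
  · rintro ⟨h1, h2, h3, h4⟩
    refine ⟨⟨h1, h3, fun c m hm => ?_⟩, h2⟩
    have : c ∈ supp p := Or.inr (by omega)
    exact h4 c (h2 this) m hm
  · rintro ⟨⟨h1, h3, h4⟩, h2⟩
    exact ⟨h1, h2, h3, fun c _ m hm => h4 c m hm⟩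

lemma supp_nil : supp (nil : Code Q) = ∅ := by
  ext b; simp [supp]

lemma valid_nil : Valid (nil : Code Q) := by
  refine ⟨by rw [supp_nil]; exact Set.finite_empty, fun c m _ => ⟨rfl, rfl⟩, fun c m hm => ?_⟩
  exact absurd hm (Nat.not_lt_zero m)

lemma supp_restr {A : Set Q} {p : Code Q} : supp (restr A p) = supp p ∩ A := by
  ext b
  by_cases hb : b ∈ A
  · simp [supp, restr_s hb, restr_k hb, hb]
  · simp [supp, restr_s' hb, restr_k' hb, hb]

lemma valid_restr {A : Set Q} {p : Code Q} (h : Valid p) : Valid (restr A p) := by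
  obtain ⟨h1, h2, h3⟩ := h
  refine ⟨?_, ?_, ?_⟩
  · rw [supp_restr]; exact h1.inter_of_left _
  · intro c m hm
    by_cases hc : c ∈ A
    · rw [restr_k hc] at hm
      rw [restr_F hc, restr_v hc]
      exact h2 c m hm
    · rw [restr_F' hc, restr_v' hc]
      exact ⟨rfl, rfl⟩
  · intro c m hm
    by_cases hc : c ∈ A
    · rw [restr_k hc] at hm
      rw [restr_F hc]
      exact h3 c m hm
    · rw [restr_k' hc] at hm
      exact absurd hm (Nat.not_lt_zero m)

open Classical in
/-- `r` on `A`, `p` outside `A` -/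
noncomputable def over (A : Set Q) (r p : Code Q) : Code Q :=
  mk (fun c => if c ∈ A then r.s c else p.s c) (fun c => if c ∈ A then r.k c else p.k c)
    (fun c => if c ∈ A then r.F c else p.F c) (fun c => if c ∈ A then r.v c else p.v c)

section over
variable {A : Set Q} {r p : Code Q} {c : Q}

lemma over_s (h : c ∈ A) : (over A r p).s c = r.s c := if_pos h
lemma over_s' (h : c ∉ A) : (over A r p).s c = p.s c := if_neg h
lemma over_k (h : c ∈ A) : (over A r p).k c = r.k c := if_pos h
lemma over_k' (h : c ∉ A) : (over A r p).k c = p.k c := if_neg h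
lemma over_F (h : c ∈ A) : (over A r p).F c = r.F c := if_pos h
lemma over_F' (h : c ∉ A) : (over A r p).F c = p.F c := if_neg h
lemma over_v (h : c ∈ A) : (over A r p).v c = r.v c := if_pos h
lemma over_v' (h : c ∉ A) : (over A r p).v c = p.v c := if_neg h

lemma supp_over_subset : supp (over A r p) ⊆ supp r ∪ supp p := by
  intro b hb
  by_cases h : b ∈ A
  · left
    simpa [supp, over_s h, over_k h] using hb
  · right
    simpa [supp, over_s' h, over_k' h] using hb

lemma valid_over (hr : Valid r) (hp : Valid p) : Valid (over A r p) := by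
  refine ⟨(hr.1.union hp.1).subset supp_over_subset, ?_, ?_⟩
  · intro c m hm
    by_cases hc : c ∈ A
    · rw [over_k hc] at hm
      rw [over_F hc, over_v hc]; exact hr.2.1 c m hm
    · rw [over_k' hc] at hm
      rw [over_F' hc, over_v' hc]; exact hp.2.1 c m hm
  · intro c m hm
    by_cases hc : c ∈ A
    · rw [over_k hc] at hm
      rw [over_F hc]; exact hr.2.2 c m hm
    · rw [over_k' hc] at hm
      rw [over_F' hc]; exact hp.2.2 c m hm

lemma restr_over {B : Set Q} (hB : B ⊆ A) : restr B (over A r p) = restr B r :=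
  restr_congr (fun _ hc => over_s (hB hc)) (fun _ hc => over_k (hB hc))
    (fun _ hc => over_F (hB hc)) (fun _ hc => over_v (hB hc))

lemma le_over_left (hA : ∀ b ∈ A, Set.Iio b ⊆ A) (hr : supp r ⊆ A) : Le r (over A r p) := by
  rw [le_def]
  intro b
  by_cases hb : b ∈ A
  · rw [over_s hb, over_k hb, over_F hb, over_v hb]
    exact ⟨List.prefix_rfl, fun m hm => ⟨m, hm, rfl, rfl⟩, fun m _ i h1 h2 => by omega⟩
  · have h1 : b ∉ supp r := fun h => hb (hr h)
    simp only [supp, Set.mem_ofPred_eq, not_or, not_not] at h1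
    rw [h1.1, h1.2]
    exact ⟨List.nil_prefix, fun m hm => by omega, fun m hm => by omega⟩

lemma le_over_right (hA : ∀ b ∈ A, Set.Iio b ⊆ A) (hr : Le (restr A p) r) :
    Le p (over A r p) := by
  rw [le_def] at hr ⊢
  intro b
  by_cases hb : b ∈ A
  · have h := hr b
    rw [restr_s hb, restr_k hb, restr_F hb, restr_v hb] at h
    rw [over_s hb, over_k hb, over_F hb, over_v hb, restr_over (hA b hb)]
    exact h
  · rw [over_s' hb, over_k' hb, over_F' hb, over_v' hb]
    exact ⟨List.prefix_rfl, fun m hm => ⟨m, hm, rfl, rfl⟩, fun m _ i h1 h2 => by omega⟩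

end over

/-- amalgamation of two conditions with the same stems -/
def join (p q : Code Q) : Code Q :=
  mk (fun b => if p.s b = [] then q.s b else p.s b) (fun b => p.k b + q.k b)
    (fun b m => if m < p.k b then p.F b m else q.F b (m - p.k b))
    (fun b m => if m < p.k b then p.v b m else q.v b (m - p.k b))

section join
variable {p q : Code Q}

lemma supp_join : supp (join p q) = supp p ∪ supp q := by
  ext b
  simp only [supp, join, s_mk, k_mk, Set.mem_ofPred_eq, Set.mem_union]
  by_cases h : p.s b = []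
  · rw [if_pos h]
    simp only [h, ne_eq, not_true_eq_false, false_or]
    constructor
    · rintro (h1 | h1)
      · exact Or.inr (Or.inl h1)
      · by_cases h2 : p.k b = 0
        · exact Or.inr (Or.inr (by omega))
        · exact Or.inl h2
    · rintro (h1 | h1 | h1)
      · right; omega
      · left; exact h1
      · right; omega
  · rw [if_neg h]
    simp [h]

lemma valid_join (hp : Valid p) (hq : Valid q) : Valid (join p q) := by
  refine ⟨by rw [supp_join]; exact hp.1.union hq.1, ?_, ?_⟩
  · intro c m hm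
    have hm' : p.k c + q.k c ≤ m := hm
    have h1 : ¬ m < p.k c := by omega
    refine ⟨?_, ?_⟩
    · change (if m < p.k c then p.F c m else q.F c (m - p.k c)) = _
      rw [if_neg h1]
      exact (hq.2.1 c _ (by omega)).1
    · change (if m < p.k c then p.v c m else q.v c (m - p.k c)) = _
      rw [if_neg h1]
      exact (hq.2.1 c _ (by omega)).2
  · intro c m hm
    have hm' : m < p.k c + q.k c := hm
    change GoodAt (VB c) (if m < p.k c then p.F c m else q.F c (m - p.k c))
    by_cases h1 : m < p.k c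
    · rw [if_pos h1]; exact hp.2.2 c m h1
    · rw [if_neg h1]; exact hq.2.2 c _ (by omega)

lemma le_join_left (h : ∀ b, b ∈ supp p → b ∈ supp q → p.s b = q.s b) : Le p (join p q) := by
  rw [le_def]
  intro b
  have hs : (join p q).s b = p.s b ∨ p.k b = 0 ∧ p.s b = [] := by
    change (if p.s b = [] then q.s b else p.s b) = _ ∨ _
    by_cases h1 : p.s b = []
    · rw [if_pos h1]
      by_cases h2 : p.k b = 0
      · right; exact ⟨h2, h1⟩
      · left
        by_cases h3 : b ∈ supp q
        · exact (h b (Or.inr h2) h3).symm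
        · simp only [supp, Set.mem_ofPred_eq, not_or, not_not] at h3
          rw [h3.1, h1]
    · rw [if_neg h1]; left; rfl
  refine ⟨?_, ?_, ?_⟩
  · rcases hs with h1 | h1
    · rw [h1]
    · rw [h1.2]; exact List.nil_prefix
  · intro m hm
    refine ⟨m, Nat.lt_of_lt_of_le hm (Nat.le_add_right _ _), ?_, ?_⟩
    · exact if_pos hm
    · exact if_pos hm
  · intro m hm i hi1 hi2
    rcases hs with h1 | h1
    · rw [h1] at hi2; omega
    · omega

lemma le_join_right (h : ∀ b, b ∈ supp p → b ∈ supp q → p.s b = q.s b) : Le q (join p q) := by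
  rw [le_def]
  intro b
  have hs : (join p q).s b = q.s b ∨ q.k b = 0 ∧ q.s b = [] := by
    change (if p.s b = [] then q.s b else p.s b) = _ ∨ _
    by_cases h1 : p.s b = []
    · rw [if_pos h1]; left; rfl
    · rw [if_neg h1]
      by_cases h3 : b ∈ supp q
      · left; exact h b (Or.inl h1) h3
      · right
        simp only [supp, Set.mem_ofPred_eq, not_or, not_not] at h3
        exact ⟨h3.2, h3.1⟩
  refine ⟨?_, ?_, ?_⟩
  · rcases hs with h1 | h1
    · rw [h1]
    · rw [h1.2]; exact List.nil_prefix
  · intro m hm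
    refine ⟨p.k b + m, Nat.add_lt_add_left hm _, ?_, ?_⟩
    · change (if p.k b + m < p.k b then _ else q.F b (p.k b + m - p.k b)) = _
      rw [if_neg (by omega), Nat.add_sub_cancel_left]
    · change (if p.k b + m < p.k b then _ else q.v b (p.k b + m - p.k b)) = _
      rw [if_neg (by omega), Nat.add_sub_cancel_left]
  · intro m hm i hi1 hi2
    rcases hs with h1 | h1
    · rw [h1] at hi2; omega
    · omega

end join

end Code

end Pool.Agent.Hechler
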