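import Pool.Agent.Lib_Hechler.Facts

/-!
# Cohen-type reals read off from the generic reals
-/

set_option linter.unusedSectionVars false
set_option linter.unusedVariables false

namespace Pool.Agent.Hechler

open Forcing Name Inner Code

variable {Q : Type} [Preorder Q] [WellFoundedLT Q]

/-- meeting a predense sequence supported in a down-closed set, without touching the other stems -/
lemma exists_below_of_predense {L : Set Q} (hL : Down L) (c : ℕ → Cond Q)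
    (hs : ∀ j, (c j).supp ⊆ L) (hp : ∀ p, ∃ j r, r ≤ p ∧ r ≤ c j) (p : Cond Q) :
    ∃ q ≤ p, (∃ j, q ≤ c j) ∧ ∀ b ∉ L, q.1.s b = p.1.s b := by
  have hsupp : ∀ r : Cond Q, (r.restr L).supp ⊆ L := by
    intro r x hx
    have hx' : x ∈ Code.supp (Code.restr L r.1) := hx
    rw [supp_restr] at hx'
    exact hx'.2
  obtain ⟨j, r, h1, h2⟩ := hp (p.restr L)
  obtain ⟨q, hq1, hq2, _, _, hq3, _⟩ := Cond.exists_over hL p (r.restr L) (hsupp r)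
    ((Cond.restr_mono hL h1).trans (Cond.restr_eq_self (hsupp p)))
  exact ⟨q, hq1, ⟨j, hq2.trans ((Cond.restr_mono hL h2).trans (Cond.restr_eq_self (hs j)))⟩, hq3⟩

/-- the value read off from a number -/
def phi (x : ℕ) : ℕ := x.unpair.1

lemma exists_phi (v M : ℕ) : ∃ x, M ≤ x ∧ phi x = v :=
  ⟨Nat.pair v M, Nat.right_le_pair v M, by simp [phi]⟩

lemma exists_match (b : Q) (l : List ℕ) (p : Cond Q) :
    ∃ q ≤ p, (q.1.s b).map phi = (p.1.s b).map phi ++ l := by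
  induction l generalizing p with
  | nil => exact ⟨p, le_rfl, by simp⟩
  | cons a l ih =>
    obtain ⟨M, hM⟩ := exists_ext_one' b p
    obtain ⟨x, hx1, hx2⟩ := exists_phi a M
    obtain ⟨q, hq, hqs, _⟩ := hM x hx1
    obtain ⟨r, hr, hrs⟩ := ih q
    refine ⟨r, hr.trans hq, ?_⟩
    rw [hrs, hqs]
    simp [hx2]

/-- the name of the real read off from the generic real at `b` -/
def cName (b : Q) : Name (Cond Q) :=
  Name.mk (Σ i : ℕ, Σ v : ℕ, {p : Cond Q // ∃ x, StemVal p b i x ∧ phi x = v})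
    (fun t => opairName (num t.1) (num t.2.1)) (fun t => t.2.2.1)

section generic
variable {𝔊 : Gen (Cond Q)} (h𝔊 : Rich 𝔊)
include h𝔊

lemma mem_cName {b : Q} (hb : cName b ∈ 𝔊.N) {z : 𝔊.M} : 𝔊.E z (𝔊.cls ⟨cName b, hb⟩) ↔
    ∃ i x n, z = pair 𝔊.E (h𝔊.nu i) (h𝔊.nu (phi x)) ∧ StemVal (𝔊.G n) b i x := by
  obtain ⟨z', rfl⟩ := 𝔊.exists_rep z
  have hop : ∀ i v : ℕ, opairName (num i) (num v) ∈ 𝔊.N :=
    fun i v => h𝔊.opair_mem (h𝔊.num_mem i) (h𝔊.num_mem v)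
  have hcl : ∀ i v : ℕ, 𝔊.cls ⟨opairName (num i) (num v), hop i v⟩ =
      pair 𝔊.E (h𝔊.nu i) (h𝔊.nu v) := fun i v =>
    h𝔊.cls_opairName (x := ⟨num i, h𝔊.num_mem i⟩) (y := ⟨num v, h𝔊.num_mem v⟩)
  constructor
  · intro h
    obtain ⟨n, ⟨i, v, p, x, hp, rfl⟩, h1, h2⟩ := h𝔊.split z'.1 z'.2 _ hb h
    refine ⟨i, x, n, ?_, hp.mono h1⟩
    rw [← hcl]
    exact (𝔊.cls_eq).2 ⟨n, h2⟩
  · rintro ⟨i, x, n, h1, h2⟩
    rw [h1, ← hcl]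
    exact ⟨n, fmem_nm (cName b) ⟨i, phi x, 𝔊.G n, x, h2, rfl⟩ le_rfl⟩

lemma val_cName {b : Q} (hb : cName b ∈ 𝔊.N) {x y : 𝔊.M} :
    Val 𝔊.E (𝔊.cls ⟨cName b, hb⟩) x y ↔
    ∃ i z n, x = h𝔊.nu i ∧ y = h𝔊.nu (phi z) ∧ StemVal (𝔊.G n) b i z := by
  rw [val_iff h𝔊.zfc, mem_cName h𝔊 hb]
  constructor
  · rintro ⟨i, v, n, h1, h2⟩
    rw [pair_inj h𝔊.zfc] at h1
    exact ⟨i, v, n, h1.1, h1.2, h2⟩
  · rintro ⟨i, v, n, rfl, rfl, h2⟩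
    exact ⟨i, v, n, rfl, h2⟩

end generic

lemma frc_isFun_cName (b : Q) (p : Cond Q) :
    Frc (fun _ E v => IsFun E (v 0) (v 1) (v 1)) (ev omegaName [cName b, omegaName]) p := by
  refine frc_of_list (FO.isFun 0 1 1) _ _ p ∅ Set.countable_empty
    (fun i : ℕ => {q : Cond Q | i < (q.1.s b).length})
    (fun i p => by
      obtain ⟨q, hq, h⟩ := exists_long_stem b (i+1) p
      exact ⟨q, hq, h⟩) ?_
  intro 𝔊 h𝔊 _ _ hD hl hd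
  have hb : cName b ∈ 𝔊.N := hl _ (by simp)
  change IsFun 𝔊.E (𝔊.cls ⟨cName b, hb⟩) h𝔊.om h𝔊.om
  constructor
  · intro z hz
    rw [mem_cName h𝔊 hb] at hz
    obtain ⟨i, v, n, rfl, _⟩ := hz
    exact ⟨_, _, h𝔊.nu_mem_om i, h𝔊.nu_mem_om _, (isPair_iff h𝔊.zfc).2 rfl⟩
  · intro x hx
    obtain ⟨i, rfl⟩ := h𝔊.mem_om.1 hx
    obtain ⟨n, hn⟩ := hD i
    refine ⟨h𝔊.nu (phi (((𝔊.G n).1.s b).getD i 0)), ?_, ?_⟩
    · exact (val_cName h𝔊 hb).2 ⟨i, _, n, rfl, rfl, hn, rfl⟩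
    · intro y hy
      obtain ⟨i', v, m, h1, rfl, h2⟩ := (val_cName h𝔊 hb).1 hy
      rw [h𝔊.nu_inj] at h1
      subst h1
      have h3 := h2.mono (𝔊.anti (le_max_right n m))
      have h4 := StemVal.mono (show StemVal (𝔊.G n) b i _ from ⟨hn, rfl⟩) (𝔊.anti (le_max_left n m))
      rw [h3.unique h4]

section generic
variable {𝔊 : Gen (Cond Q)} (h𝔊 : Rich 𝔊)
include h𝔊

lemma isFun_cName {b : Q} (hb : cName b ∈ 𝔊.N) :
    IsFun 𝔊.E (𝔊.cls ⟨cName b, hb⟩) h𝔊.om h𝔊.om :=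
  Frc.true_list (FO.isFun 0 1 1) 𝔊 [⟨cName b, hb⟩, ⟨omegaName, h𝔊.omega_mem⟩]
    ⟨omegaName, h𝔊.omega_mem⟩ (n := 0) (frc_isFun_cName b _)

lemma codes_cName {b : Q} (hb : cName b ∈ 𝔊.N) : ∃ f, h𝔊.Codes (𝔊.cls ⟨cName b, hb⟩) f ∧
    ∀ i x n, StemVal (𝔊.G n) b i x → f i = phi x := by
  obtain ⟨f, hf⟩ := h𝔊.exists_codes (isFun_cName h𝔊 hb)
  refine ⟨f, hf, fun i x n hn => ?_⟩
  have h1 : Val 𝔊.E (𝔊.cls ⟨cName b, hb⟩) (h𝔊.nu i) (h𝔊.nu (phi x)) :=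
    (val_cName h𝔊 hb).2 ⟨i, x, n, rfl, rfl, hn⟩
  rw [hf.val_iff, h𝔊.nu_inj] at h1
  exact h1.symm

end generic

/-! ### names of ground model reals -/

/-- the name of the function `i ↦ f i` of the ground model -/
def funName {P : Type} [Preorder P] [OrderTop P] (f : ℕ → ℕ) : Name P :=
  Name.mk ℕ (fun i => opairName (num i) (num (f i))) (fun _ => ⊤)

lemma codes_funName {P : Type} [Preorder P] [OrderTop P] {𝔊 : Gen P} (h𝔊 : Rich 𝔊)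
    (f : ℕ → ℕ) (hf : funName f ∈ 𝔊.N) : h𝔊.Codes (𝔊.cls ⟨funName f, hf⟩) f := by
  have hop : ∀ i v : ℕ, opairName (num i) (num v) ∈ 𝔊.N :=
    fun i v => h𝔊.opair_mem (h𝔊.num_mem i) (h𝔊.num_mem v)
  have hcl : ∀ i v : ℕ, 𝔊.cls ⟨opairName (num i) (num v), hop i v⟩ =
      pair 𝔊.E (h𝔊.nu i) (h𝔊.nu v) := fun i v =>
    h𝔊.cls_opairName (x := ⟨num i, h𝔊.num_mem i⟩) (y := ⟨num v, h𝔊.num_mem v⟩)
  have hmem : ∀ z, 𝔊.E z (𝔊.cls ⟨funName f, hf⟩) ↔ ∃ i, z = pair 𝔊.E (h𝔊.nu i) (h𝔊.nu (f i)) := by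
    intro z
    obtain ⟨z', rfl⟩ := 𝔊.exists_rep z
    constructor
    · intro h
      obtain ⟨n, i, h1, h2⟩ := h𝔊.split z'.1 z'.2 _ hf h
      refine ⟨i, ?_⟩
      rw [← hcl]
      exact (𝔊.cls_eq).2 ⟨n, h2⟩
    · rintro ⟨i, h1⟩
      rw [h1, ← hcl]
      exact ⟨0, fmem_nm (funName f) i le_top⟩
  have hval : ∀ x y, Val 𝔊.E (𝔊.cls ⟨funName f, hf⟩) x y ↔
      ∃ i, x = h𝔊.nu i ∧ y = h𝔊.nu (f i) := by
    intro x y
    rw [val_iff h𝔊.zfc, hmem]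
    exact exists_congr fun i => pair_inj h𝔊.zfc
  refine ⟨⟨?_, ?_⟩, fun i => (hval _ _).2 ⟨i, rfl, rfl⟩⟩
  · intro z hz
    obtain ⟨i, rfl⟩ := (hmem z).1 hz
    exact ⟨_, _, h𝔊.nu_mem_om _, h𝔊.nu_mem_om _, (isPair_iff h𝔊.zfc).2 rfl⟩
  · intro x hx
    obtain ⟨i, rfl⟩ := h𝔊.mem_om.1 hx
    refine ⟨h𝔊.nu (f i), (hval _ _).2 ⟨i, rfl, rfl⟩, ?_⟩
    intro y hy
    obtain ⟨j, h1, h2⟩ := (hval _ _).1 hy
    rw [h𝔊.nu_inj] at h1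
    subst h1; exact h2

end Pool.Agent.Hechler
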