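import Pool.Agent.Lib_Hechler.Names

/-!
# Forced facts about the generic reals
-/

set_option linter.unusedSectionVars false
set_option linter.unusedVariables false

namespace Pool.Agent.Hechler

open Forcing Name Inner Code

variable {Q : Type} [Preorder Q] [WellFoundedLT Q]

/-! ### conditions consisting of one stem -/

/-- the condition with the single stem `l` at `b` -/
noncomputable def stemCond (b : Q) (l : List ℕ) : Cond Q :=
  ⟨setStem b l nil, valid_setStem b l valid_nil⟩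

lemma le_stemCond {b : Q} {l : List ℕ} {r : Cond Q} : r ≤ stemCond b l ↔ l <+: r.1.s b := by
  change Le (setStem b l nil) r.1 ↔ _
  rw [le_def]
  constructor
  · intro h
    have := (h b).1
    rwa [setStem_s_self] at this
  · intro h c
    refine ⟨?_, fun m hm => absurd hm (Nat.not_lt_zero m), fun m hm => absurd hm (Nat.not_lt_zero m)⟩
    by_cases hc : c = b
    · subst hc; rw [setStem_s_self]; exact h
    · rw [setStem_s_ne hc]; exact List.nil_prefix

lemma supp_stemCond (b : Q) (l : List ℕ) : (stemCond b l).supp ⊆ {b} := by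
  intro c hc
  have := supp_setStem b l nil hc
  rw [supp_nil] at this
  simpa using this

/-- a list of length more than `i` -/
def padList (i : ℕ) (l : List ℕ) : List ℕ := if i < l.length then l else l ++ List.replicate (i+1) 0

lemma lt_length_padList (i : ℕ) (l : List ℕ) : i < (padList i l).length := by
  unfold padList
  split_ifs with h
  · exact h
  · simp; omega

/-- the canonical good name of the generic real at `b` -/
noncomputable def selfC (b : Q) (i j : ℕ) : Cond Q :=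
  stemCond b (padList i (Denumerable.ofNat (List ℕ) j))

/-- values of the canonical name -/
def selfW (i j : ℕ) : ℕ := (padList i (Denumerable.ofNat (List ℕ) j)).getD i 0

lemma selfC_predense (b : Q) (i : ℕ) (p : Cond Q) : ∃ j r, r ≤ p ∧ r ≤ selfC b i j := by
  obtain ⟨q, hq, h⟩ := exists_long_stem b (i+1) p
  refine ⟨Encodable.encode (q.1.s b), q, hq, ?_⟩
  unfold selfC
  rw [Denumerable.ofNat_encode, le_stemCond]
  unfold padList
  rw [if_pos (by omega)]

lemma stemVal_of_le_selfC {b : Q} {i j : ℕ} {p : Cond Q} (h : p ≤ selfC b i j) :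
    StemVal p b i (selfW i j) := by
  unfold selfC at h
  rw [le_stemCond] at h
  have h1 := lt_length_padList i (Denumerable.ofNat (List ℕ) j)
  exact ⟨lt_of_lt_of_le h1 h.length_le, getD_of_prefix h h1⟩

lemma goodAt_self {c b : Q} (h : c < b) : GoodAt (VB b) (fun i j => (selfC c i j).1) := by
  apply goodAt_of_predense b (selfC c)
  · intro i j x hx
    have := supp_stemCond _ _ hx
    rw [Set.mem_singleton_iff] at this
    subst this; exact h
  · exact fun i p => selfC_predense c i p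

/-- `c < b` implies `g_c ≤* g_b` -/
lemma frc_dom_of_lt {c b : Q} (h : c < b) (p : Cond Q) :
    Frc (fun _ E v => DomLE E (v 0) (v 1) (v 2)) (ev omegaName [omegaName, gName c, gName b]) p := by
  refine frc_of_list (FO.domLE 0 1 2) _ _ p ∅ Set.countable_empty
    (fun _ : Unit => {q | Lists b (selfC c) selfW q})
    (fun _ p => exists_lists b _ _ (goodAt_self h) p) ?_
  intro 𝔊 h𝔊 _ _ hD hl hd
  have hc : gName c ∈ 𝔊.N := hl _ (by simp)
  have hb : gName b ∈ 𝔊.N := hl _ (by simp)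
  change DomLE 𝔊.E h𝔊.om (𝔊.cls ⟨gName c, hc⟩) (𝔊.cls ⟨gName b, hb⟩)
  obtain ⟨f, hf, hf'⟩ := codes_gName h𝔊 hc
  obtain ⟨g, hg, hg'⟩ := codes_gName h𝔊 hb
  rw [h𝔊.domLE_iff hf hg]
  obtain ⟨n0, hn0⟩ := hD ()
  refine dom_of_lists h𝔊 hb hg' hn0 ?_
  intro i j n hn
  exact ((hf' i _).2 ⟨n, stemVal_of_le_selfC hn⟩).le

/-- if `a` is not below or equal to `b`, then `g_a ≤* g_b` fails -/
lemma frc_not_dom {a b : Q} (hab : ¬ a < b) (hne : a ≠ b) (p : Cond Q) :
    Frc (fun _ E v => ¬ DomLE E (v 0) (v 1) (v 2)) (ev omegaName [omegaName, gName a, gName b]) p := by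
  refine frc_of_list (FO.not (FO.domLE 0 1 2)) _ _ p ∅ Set.countable_empty
    (fun m : ℕ => {q | ∃ i, m ≤ i ∧ ∃ x y, StemVal q a i x ∧ StemVal q b i y ∧ y < x})
    (fun m p => ?_) ?_
  · -- density
    obtain ⟨p1, hp1, h1⟩ := exists_long_stem a m p
    -- extend the stem at b beyond |s a|, without changing the stem at a
    have key : ∀ n, ∃ q ≤ p1, q.1.s a = p1.1.s a ∧ n ≤ (q.1.s b).length := by
      intro n
      induction n with
      | zero => exact ⟨p1, le_rfl, rfl, Nat.zero_le _⟩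
      | succ n ih =>
        obtain ⟨q, hq, hqa, hn⟩ := ih
        obtain ⟨M, h⟩ := exists_ext_one' b q
        obtain ⟨r, hr, hs, hr'⟩ := h M le_rfl
        refine ⟨r, hr.trans hq, (hr' a hab hne).trans hqa, ?_⟩
        rw [hs, List.length_append, List.length_singleton]; omega
    obtain ⟨q, hq, hqa, hqb⟩ := key ((p1.1.s a).length + 1)
    obtain ⟨M, hM⟩ := exists_ext_one' a q
    obtain ⟨r, hr, hra, _⟩ := hM (max M ((q.1.s b).getD (p1.1.s a).length 0 + 1)) (le_max_left _ _)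
    refine ⟨r, hr.trans (hq.trans hp1), (p1.1.s a).length, h1, _, _, ⟨?_, rfl⟩,
      StemVal.mono (show StemVal q b (p1.1.s a).length _ from ⟨by omega, rfl⟩) hr, ?_⟩
    · rw [hra, hqa, List.length_append, List.length_singleton]; omega
    · rw [hra, hqa]
      have : (p1.1.s a ++ [max M ((q.1.s b).getD (p1.1.s a).length 0 + 1)]).getD
          (p1.1.s a).length 0 = max M ((q.1.s b).getD (p1.1.s a).length 0 + 1) := by
        simp [List.getD]
      rw [this]
      have := le_max_right M ((q.1.s b).getD (p1.1.s a).length 0 + 1)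
      omega
  · intro 𝔊 h𝔊 _ _ hD hl hd
    have ha : gName a ∈ 𝔊.N := hl _ (by simp)
    have hb : gName b ∈ 𝔊.N := hl _ (by simp)
    change ¬ DomLE 𝔊.E h𝔊.om (𝔊.cls ⟨gName a, ha⟩) (𝔊.cls ⟨gName b, hb⟩)
    obtain ⟨f, hf, hf'⟩ := codes_gName h𝔊 ha
    obtain ⟨g, hg, hg'⟩ := codes_gName h𝔊 hb
    rw [h𝔊.domLE_iff hf hg]
    rintro ⟨m, hm⟩
    obtain ⟨n, i, hi, x, y, hx, hy, hxy⟩ := hD m
    have e1 := (hf' i x).2 ⟨n, hx⟩
    have e2 := (hg' i y).2 ⟨n, hy⟩
    have := hm i hi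
    omega

/-! ### countable supports of names for reals -/

/-- Every name `x` has a countable support `A`: if `A` lies below `b`, then it is forced that
`x ≤* g_b`, provided `x` is a function from `ω` to `ω`. -/
theorem exists_support (x : Name (Cond Q)) : ∃ A : Set Q, A.Countable ∧ ∀ b, A ⊆ Set.Iio b →
    ∀ p, Frc (fun _ E v => IsFun E (v 1) (v 0) (v 0) → DomLE E (v 0) (v 1) (v 2))
      (ev omegaName [omegaName, x, gName b]) p := by
  classical
  have hR1 : FO.{1} (fun _ E v => Val E (v 0) (v 1) (v 2)) := FO.val _ _ _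
  have hR2 : FO.{1} (fun _ E v => ¬ IsFun E (v 1) (v 0) (v 0)) := FO.not (FO.isFun _ _ _)
  let V : ℕ → ℕ → Cond Q → Prop := fun i v q =>
    Frc (fun _ E v => Val E (v 0) (v 1) (v 2)) (ev omegaName [x, num i, num v]) q
  let B : Cond Q → Prop := fun q =>
    Frc (fun _ E v => ¬ IsFun E (v 1) (v 0) (v 0)) (ev omegaName [omegaName, x]) q
  let D : ℕ → Set (Cond Q) := fun i => {q | (∃ v, V i v q) ∨ B q}
  have hD : ∀ i p, ∃ q ≤ p, q ∈ D i := by
    intro i p
    obtain ⟨𝔊, h𝔊, h0, hS, _, _⟩ := exists_rich (P := Cond Q) (ι := Empty) (κ := Empty) {x}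
      (Set.countable_singleton x) (fun k => k.elim) (fun k => k.elim) (fun k => k.elim) p
    have hx : x ∈ 𝔊.N := hS rfl
    by_cases h : IsFun 𝔊.E (𝔊.cls ⟨x, hx⟩) h𝔊.om h𝔊.om
    · obtain ⟨f, hf⟩ := h𝔊.exists_codes h
      have h1 := hf.2 i
      have h2 := (truth_list hR1 𝔊 [⟨x, hx⟩, ⟨num i, h𝔊.num_mem i⟩, ⟨num (f i), h𝔊.num_mem (f i)⟩]
        ⟨omegaName, h𝔊.omega_mem⟩).1 h1
      obtain ⟨n, hn⟩ := h2
      exact ⟨𝔊.G n, by rw [← h0]; exact 𝔊.anti (Nat.zero_le n), Or.inl ⟨f i, hn⟩⟩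
    · have h2 := (truth_list hR2 𝔊 [⟨omegaName, h𝔊.omega_mem⟩, ⟨x, hx⟩]
        ⟨omegaName, h𝔊.omega_mem⟩).1 h
      obtain ⟨n, hn⟩ := h2
      exact ⟨𝔊.G n, by rw [← h0]; exact 𝔊.anti (Nat.zero_le n), Or.inr hn⟩
  have hop : ∀ i, ∀ p ∈ D i, ∀ q ≤ p, q ∈ D i := by
    rintro i p (⟨v, h⟩ | h) q hq
    · exact Or.inl ⟨v, h.mono hq⟩
    · exact Or.inr (h.mono hq)
  choose c hcD hcp using fun i => exists_predense_seq (D i) (hD i) (hop i)
  let w : ℕ → ℕ → ℕ := fun i j => if h : ∃ v, V i v (c i j) then h.choose else 0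
  refine ⟨⋃ i, ⋃ j, (c i j).supp, Set.countable_iUnion fun i => Set.countable_iUnion fun j =>
    (c i j).supp_finite.countable, ?_⟩
  intro b hb p
  have hgood : GoodAt (VB b) (fun i j => (c i j).1) := by
    apply goodAt_of_predense b c
    · intro i j
      refine Set.Subset.trans ?_ hb
      exact Set.subset_iUnion_of_subset i (Set.subset_iUnion_of_subset j le_rfl)
    · exact fun i p => hcp i p
  refine frc_of_list (FO.imp (FO.isFun 1 0 0) (FO.domLE 0 1 2)) _ _ p
    ∅ Set.countable_empty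
    (fun _ : Unit => {q | Lists b c w q}) (fun _ p => exists_lists b _ _ hgood p) ?_
  intro 𝔊 h𝔊 _ _ hL hl hd
  have hx : x ∈ 𝔊.N := hl _ (by simp)
  have hb' : gName b ∈ 𝔊.N := hl _ (by simp)
  change IsFun 𝔊.E (𝔊.cls ⟨x, hx⟩) h𝔊.om h𝔊.om →
    DomLE 𝔊.E h𝔊.om (𝔊.cls ⟨x, hx⟩) (𝔊.cls ⟨gName b, hb'⟩)
  intro hfun
  obtain ⟨f, hf⟩ := h𝔊.exists_codes hfun
  obtain ⟨g, hg, hg'⟩ := codes_gName h𝔊 hb'
  rw [h𝔊.domLE_iff hf hg]
  obtain ⟨n0, hn0⟩ := hL ()
  refine dom_of_lists h𝔊 hb' hg' hn0 ?_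
  intro i j n hn
  rcases hcD i j with h1 | h1
  · have h2 : V i (w i j) (c i j) := by
      have : w i j = h1.choose := dif_pos h1
      rw [this]; exact h1.choose_spec
    have h3 := Frc.true_list hR1 𝔊 [⟨x, hx⟩, ⟨num i, h𝔊.num_mem i⟩, ⟨num (w i j), h𝔊.num_mem (w i j)⟩]
      ⟨omegaName, h𝔊.omega_mem⟩ (n := n) (h2.mono hn)
    have h4 : Val 𝔊.E (𝔊.cls ⟨x, hx⟩) (h𝔊.nu i) (h𝔊.nu (w i j)) := h3
    rw [hf.val_iff, h𝔊.nu_inj] at h4
    exact h4.ge
  · exfalso
    have h3 := Frc.true_list hR2 𝔊 [⟨omegaName, h𝔊.omega_mem⟩, ⟨x, hx⟩]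
      ⟨omegaName, h𝔊.omega_mem⟩ (n := n) (Frc.mono h1 hn)
    exact h3 hfun

end Pool.Agent.Hechler
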