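import Mathlib.SetTheory.Cardinal.Regular
import Mathlib.SetTheory.Cardinal.Cofinality.Ordinal
import Mathlib.SetTheory.Cardinal.Pigeonhole

/-!
# Two well-ordered index sets
-/

namespace Pool.Agent.Hechler

open Cardinal

lemma exists_bound_of_regular {c : Cardinal.{0}} (hc : c.IsRegular) (A : Set c.ord.ToType)
    (hA : #A < c) : ∃ x, ∀ a ∈ A, a < x := by
  have h1 : ¬ IsCofinal A := by
    intro h
    have h2 := Order.cof_le h
    rw [Ordinal.cof_toType, hc.cof_ord] at h2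
    exact absurd hA (not_lt.2 h2)
  unfold IsCofinal at h1
  push Not at h1
  exact h1

/-- a well order of type `ω₁` -/
abbrev Om1 : Type := (ℵ₁ : Cardinal.{0}).ord.ToType

/-- a well order of type `ω₂` -/
abbrev Om2 : Type := (Order.succ (ℵ₁ : Cardinal.{0})).ord.ToType

lemma regular2 : (Order.succ (ℵ₁ : Cardinal.{0})).IsRegular :=
  isRegular_succ aleph0_lt_aleph_one.le

lemma exists_bound_Om1 (A : Set Om1) (hA : A.Countable) : ∃ x, ∀ a ∈ A, a < x :=
  exists_bound_of_regular isRegular_aleph_one A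
    (lt_of_le_of_lt (Cardinal.le_aleph0_iff_set_countable.2 hA) aleph0_lt_aleph_one)

lemma exists_bound_Om2 (A : Set Om2) (hA : #A ≤ ℵ₁) : ∃ x, ∀ a ∈ A, a < x :=
  exists_bound_of_regular regular2 A (Order.lt_succ_of_le hA)

/-- unions of `ℵ₁` many countable sets are bounded in `Om2` -/
lemma exists_bound_Om2_iUnion {ι : Type} (hι : #ι ≤ ℵ₁) (A : ι → Set Om2)
    (hA : ∀ i, (A i).Countable) : ∃ x, ∀ i, ∀ a ∈ A i, a < x := by
  have h1 : #(⋃ i, A i) < Order.succ (ℵ₁ : Cardinal.{0}) := by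
    rw [card_iUnion_lt_iff_forall_of_isRegular regular2 (Order.lt_succ_of_le hι)]
    intro i
    exact lt_of_le_of_lt (Cardinal.le_aleph0_iff_set_countable.2 (hA i))
      (lt_trans aleph0_lt_aleph_one (Order.lt_succ _))
  obtain ⟨x, hx⟩ := exists_bound_Om2 (⋃ i, A i) (Order.lt_succ_iff.1 h1)
  exact ⟨x, fun i a ha => hx a (Set.mem_iUnion.2 ⟨i, ha⟩)⟩

instance : Nonempty Om1 := by
  obtain ⟨x, _⟩ := exists_bound_Om1 ∅ Set.countable_empty
  exact ⟨x⟩

instance : Nonempty Om2 := by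
  obtain ⟨x, _⟩ := exists_bound_Om2 ∅ (by simp)
  exact ⟨x⟩

end Pool.Agent.Hechler
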