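import Pool.Agent.Lib_Hechler.Poset
import Pool.Agent.Lib_Inner.Real
import Mathlib.Logic.Denumerable
import Mathlib.Logic.Encodable.Basic
import Mathlib.Logic.Equiv.List

/-!
# The generic reals of the Hechler-type forcing
-/

set_option linter.unusedSectionVars false
set_option linter.unusedVariables false

namespace Pool.Agent.Hechler

open Forcing Name Inner Code

variable {Q : Type} [Preorder Q] [WellFoundedLT Q]

/-! ### predense sequences -/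

lemma exists_predense_seq (D : Set (Cond Q)) (hD : ∀ p, ∃ q ≤ p, q ∈ D)
    (hop : ∀ p ∈ D, ∀ q ≤ p, q ∈ D) :
    ∃ c : ℕ → Cond Q, (∀ j, c j ∈ D) ∧ ∀ p, ∃ j r, r ≤ p ∧ r ≤ c j := by
  obtain ⟨A, hAD, hA, hmax⟩ := exists_max_antichain D
  have hc := ccc A hA
  have hne : A.Nonempty := by
    obtain ⟨q, _, hq⟩ := hD ⊤
    obtain ⟨a, ha, _⟩ := hmax q hq (hop q hq)
    exact ⟨a, ha⟩
  obtain ⟨c, rfl⟩ := hc.exists_eq_range hne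
  refine ⟨c, fun j => hAD ⟨j, rfl⟩, fun p => ?_⟩
  obtain ⟨q, hq, hqD⟩ := hD p
  obtain ⟨_, ⟨j, rfl⟩, r, hr1, hr2⟩ := hmax q hqD (hop q hqD)
  exact ⟨j, r, hr2.trans hq, hr1⟩

lemma goodAt_of_predense (b : Q) (c : ℕ → ℕ → Cond Q) (hs : ∀ i j, (c i j).supp ⊆ Set.Iio b)
    (hp : ∀ i p, ∃ j r, r ≤ p ∧ r ≤ c i j) : GoodAt (VB b) (fun i j => (c i j).1) := by
  intro i
  refine ⟨fun j => VB_iff.2 ⟨(c i j).2, hs i j⟩, fun d hd => ?_⟩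
  rw [VB_iff] at hd
  let d' : Cond Q := ⟨d, hd.1⟩
  obtain ⟨j, r, h1, h2⟩ := hp i d'
  refine ⟨j, (r.restr (Set.Iio b)).1, VB_iff.2 ⟨(r.restr (Set.Iio b)).2, ?_⟩, ?_, ?_⟩
  · intro x hx
    have hx' : x ∈ Code.supp (Code.restr (Set.Iio b) r.1) := hx
    rw [supp_restr] at hx'
    exact hx'.2
  · have h3 : r.restr (Set.Iio b) ≤ d' :=
      (Cond.restr_mono (down_Iio b) h1).trans (Cond.restr_eq_self hd.2)
    exact h3
  · have h3 : r.restr (Set.Iio b) ≤ c i j :=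
      (Cond.restr_mono (down_Iio b) h2).trans (Cond.restr_eq_self (hs i j))
    exact h3

/-- `p` lists the name `(c, w)` at `b` -/
def Lists (b : Q) (c : ℕ → ℕ → Cond Q) (w : ℕ → ℕ → ℕ) (p : Cond Q) : Prop :=
  ∃ m < p.1.k b, p.1.F b m = (fun i j => (c i j).1) ∧ p.1.v b m = w

lemma exists_lists (b : Q) (c : ℕ → ℕ → Cond Q) (w : ℕ → ℕ → ℕ)
    (hc : GoodAt (VB b) (fun i j => (c i j).1)) (p : Cond Q) : ∃ q ≤ p, Lists b c w q := by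
  obtain ⟨q, hq, _, m, hm, h1, h2⟩ := exists_addName b _ w hc p
  exact ⟨q, hq, m, hm, h1, h2⟩

lemma Lists.decide {b : Q} {c : ℕ → ℕ → Cond Q} {w : ℕ → ℕ → ℕ} {p r : Cond Q}
    (h : Lists b c w p) (hr : r ≤ p) {i : ℕ} (h1 : (p.1.s b).length ≤ i)
    (h2 : i < (r.1.s b).length) : ∃ j, r ≤ c i j ∧ w i j ≤ (r.1.s b).getD i 0 := by
  obtain ⟨m, hm, e1, e2⟩ := h
  have h3 := (le_def p.1 r.1).1 hr b
  obtain ⟨j, hj1, hj2⟩ := h3.2.2 m hm i h1 h2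
  rw [e1] at hj1
  rw [e2] at hj2
  refine ⟨j, ?_, hj2⟩
  exact le_tr hj1 (restr_le r.1)

/-! ### the generic reals -/

/-- the stem of `p` at `b` has value `v` at `i` -/
def StemVal (p : Cond Q) (b : Q) (i v : ℕ) : Prop :=
  i < (p.1.s b).length ∧ (p.1.s b).getD i 0 = v

lemma StemVal.mono {p q : Cond Q} {b : Q} {i v : ℕ} (h : StemVal p b i v) (hq : q ≤ p) :
    StemVal q b i v := by
  have h3 := ((le_def p.1 q.1).1 hq b).1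
  exact ⟨lt_of_lt_of_le h.1 h3.length_le, by rw [getD_of_prefix h3 h.1]; exact h.2⟩

lemma StemVal.unique {p : Cond Q} {b : Q} {i v v' : ℕ} (h : StemVal p b i v)
    (h' : StemVal p b i v') : v = v' := h.2.symm.trans h'.2

/-- the name of the generic real at `b` -/
def gName (b : Q) : Name (Cond Q) :=
  Name.mk (Σ i : ℕ, Σ v : ℕ, {p : Cond Q // StemVal p b i v})
    (fun t => opairName (num t.1) (num t.2.1)) (fun t => t.2.2.1)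

section generic
variable {𝔊 : Gen (Cond Q)} (h𝔊 : Rich 𝔊)
include h𝔊

lemma mem_gName {b : Q} (hb : gName b ∈ 𝔊.N) {z : 𝔊.M} : 𝔊.E z (𝔊.cls ⟨gName b, hb⟩) ↔
    ∃ i v n, z = pair 𝔊.E (h𝔊.nu i) (h𝔊.nu v) ∧ StemVal (𝔊.G n) b i v := by
  obtain ⟨z', rfl⟩ := 𝔊.exists_rep z
  have hop : ∀ i v : ℕ, opairName (num i) (num v) ∈ 𝔊.N :=
    fun i v => h𝔊.opair_mem (h𝔊.num_mem i) (h𝔊.num_mem v)
  have hcl : ∀ i v : ℕ, 𝔊.cls ⟨opairName (num i) (num v), hop i v⟩ =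
      pair 𝔊.E (h𝔊.nu i) (h𝔊.nu v) := fun i v =>
    h𝔊.cls_opairName (x := ⟨num i, h𝔊.num_mem i⟩) (y := ⟨num v, h𝔊.num_mem v⟩)
  constructor
  · intro h
    obtain ⟨n, ⟨i, v, p, hp⟩, h1, h2⟩ := h𝔊.split z'.1 z'.2 _ hb h
    refine ⟨i, v, n, ?_, hp.mono h1⟩
    rw [← hcl]
    exact (𝔊.cls_eq).2 ⟨n, h2⟩
  · rintro ⟨i, v, n, h1, h2⟩
    rw [h1, ← hcl]
    exact ⟨n, fmem_nm (gName b) ⟨i, v, 𝔊.G n, h2⟩ le_rfl⟩

lemma val_gName {b : Q} (hb : gName b ∈ 𝔊.N) {x y : 𝔊.M} :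
    Val 𝔊.E (𝔊.cls ⟨gName b, hb⟩) x y ↔
    ∃ i v n, x = h𝔊.nu i ∧ y = h𝔊.nu v ∧ StemVal (𝔊.G n) b i v := by
  rw [val_iff h𝔊.zfc, mem_gName h𝔊 hb]
  constructor
  · rintro ⟨i, v, n, h1, h2⟩
    rw [pair_inj h𝔊.zfc] at h1
    exact ⟨i, v, n, h1.1, h1.2, h2⟩
  · rintro ⟨i, v, n, rfl, rfl, h2⟩
    exact ⟨i, v, n, rfl, h2⟩

end generic

/-- the generic real is forced to be a function from `ω` to `ω` -/
lemma frc_isFun_gName (b : Q) (p : Cond Q) (w : ℕ → Name (Cond Q)) :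
    Frc (fun _ E v => IsFun E (v 0) (v 1) (v 1)) (cons (gName b) (cons omegaName w)) p := by
  refine frc_of' (FO.isFun _ _ _) _ p ∅ Set.countable_empty
    (fun i : ℕ => {q : Cond Q | i < (q.1.s b).length})
    (fun i p => by
      obtain ⟨q, hq, h⟩ := exists_long_stem b (i+1) p
      exact ⟨q, hq, h⟩) ?_
  intro 𝔊 h𝔊 _ _ hD hv
  have hb : gName b ∈ 𝔊.N := hv 0
  change IsFun 𝔊.E (𝔊.cls ⟨gName b, hb⟩) h𝔊.om h𝔊.om
  constructor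
  · intro z hz
    rw [mem_gName h𝔊 hb] at hz
    obtain ⟨i, v, n, rfl, _⟩ := hz
    exact ⟨_, _, h𝔊.nu_mem_om i, h𝔊.nu_mem_om v, (isPair_iff h𝔊.zfc).2 rfl⟩
  · intro x hx
    obtain ⟨i, rfl⟩ := h𝔊.mem_om.1 hx
    obtain ⟨n, hn⟩ := hD i
    refine ⟨h𝔊.nu (((𝔊.G n).1.s b).getD i 0), ?_, ?_⟩
    · exact (val_gName h𝔊 hb).2 ⟨i, _, n, rfl, rfl, hn, rfl⟩
    · intro y hy
      obtain ⟨i', v, m, h1, rfl, h2⟩ := (val_gName h𝔊 hb).1 hy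
      rw [h𝔊.nu_inj] at h1
      subst h1
      have h3 := h2.mono (𝔊.anti (le_max_right n m))
      have h4 := StemVal.mono (show StemVal (𝔊.G n) b i _ from ⟨hn, rfl⟩) (𝔊.anti (le_max_left n m))
      rw [h3.unique h4]

section generic
variable {𝔊 : Gen (Cond Q)} (h𝔊 : Rich 𝔊)
include h𝔊

lemma isFun_gName {b : Q} (hb : gName b ∈ 𝔊.N) :
    IsFun 𝔊.E (𝔊.cls ⟨gName b, hb⟩) h𝔊.om h𝔊.om := by
  have h := frc_isFun_gName b (𝔊.G 0) (fun _ => omegaName)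
  let v : ℕ → 𝔊.N := cons ⟨gName b, hb⟩ (cons ⟨omegaName, h𝔊.omega_mem⟩
    (fun _ => ⟨omegaName, h𝔊.omega_mem⟩))
  have hv : (fun i => (v i).1) = cons (gName b) (cons omegaName (fun _ => omegaName)) := by
    funext i
    rcases i with _ | _ | i <;> rfl
  rw [← hv] at h
  exact Frc.true (FO.isFun 0 1 1) 𝔊 v h

lemma codes_gName {b : Q} (hb : gName b ∈ 𝔊.N) : ∃ f, h𝔊.Codes (𝔊.cls ⟨gName b, hb⟩) f ∧
    ∀ i v, f i = v ↔ ∃ n, StemVal (𝔊.G n) b i v := by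
  obtain ⟨f, hf⟩ := h𝔊.exists_codes (isFun_gName h𝔊 hb)
  refine ⟨f, hf, fun i v => ?_⟩
  have h1 : Val 𝔊.E (𝔊.cls ⟨gName b, hb⟩) (h𝔊.nu i) (h𝔊.nu v) ↔ f i = v := by
    rw [hf.val_iff, h𝔊.nu_inj]; exact eq_comm
  rw [← h1, val_gName h𝔊 hb]
  constructor
  · rintro ⟨i', v', n, h2, h3, h4⟩
    rw [h𝔊.nu_inj] at h2 h3
    subst h2; subst h3
    exact ⟨n, h4⟩
  · rintro ⟨n, hn⟩
    exact ⟨i, v, n, rfl, rfl, hn⟩

/-- domination from a listed name -/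
lemma dom_of_lists {b : Q} (hb : gName b ∈ 𝔊.N) {f g : ℕ → ℕ}
    (hg : ∀ i v, g i = v ↔ ∃ n, StemVal (𝔊.G n) b i v)
    {c : ℕ → ℕ → Cond Q} {w : ℕ → ℕ → ℕ} {n0 : ℕ} (hL : Lists b c w (𝔊.G n0))
    (hf : ∀ i j n, 𝔊.G n ≤ c i j → f i ≤ w i j) : ∃ m, ∀ n, m ≤ n → f n ≤ g n := by
  refine ⟨((𝔊.G n0).1.s b).length, fun i hi => ?_⟩
  obtain ⟨n, hn⟩ := (hg i (g i)).1 rfl
  have h1 : StemVal (𝔊.G (max n0 n)) b i (g i) := hn.mono (𝔊.anti (le_max_right _ _))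
  obtain ⟨j, hj1, hj2⟩ := hL.decide (𝔊.anti (le_max_left n0 n)) hi h1.1
  rw [h1.2] at hj2
  exact (hf i j _ hj1).trans hj2

end generic

end Pool.Agent.Hechler
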