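import Pool.Agent.Lib_Hechler.Code
import Mathlib.Order.BoundedOrder.Basic
import Mathlib.Data.Set.Finite.Lemmas
import Mathlib.Tactic.Linarith

/-!
# The Hechler-type poset: extension lemmas and the countable chain condition
-/

set_option linter.unusedSectionVars false
set_option linter.unusedVariables false

namespace Pool.Agent.Hechler

universe u

open Code

variable {Q : Type u} [Preorder Q] [WellFoundedLT Q]

/-- the poset of conditions -/
def Cond (Q : Type u) [Preorder Q] [WellFoundedLT Q] : Type u := {p : Code Q // Valid p}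

instance : Preorder (Cond Q) where
  le q p := Le p.1 q.1
  le_refl p := le_rf p.1
  le_trans _ _ _ h1 h2 := le_tr h2 h1

instance : OrderTop (Cond Q) where
  top := ⟨nil, valid_nil⟩
  le_top p := le_nil p.1

lemma Cond.le_iff {p q : Cond Q} : q ≤ p ↔ Le p.1 q.1 := Iff.rfl

/-- two raw conditions have the same stems on the common support -/
def SameStems (p q : Code Q) : Prop := ∀ b, b ∈ supp p → b ∈ supp q → p.s b = q.s b

lemma exists_le_of_sameStems {p q : Cond Q} (h : SameStems p.1 q.1) : ∃ r, r ≤ p ∧ r ≤ q :=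
  ⟨⟨join p.1 q.1, valid_join p.2 q.2⟩, le_join_left h, le_join_right h⟩

/-- restriction -/
noncomputable def Cond.restr (A : Set Q) (p : Cond Q) : Cond Q := ⟨Code.restr A p.1, valid_restr p.2⟩

/-- support -/
def Cond.supp (p : Cond Q) : Set Q := Code.supp p.1

lemma Cond.supp_finite (p : Cond Q) : p.supp.Finite := p.2.1

/-- down-closed -/
def Down (A : Set Q) : Prop := ∀ b ∈ A, Set.Iio b ⊆ A

lemma down_Iio (b : Q) : Down (Set.Iio b) := isDown_Iio b

lemma Cond.le_restr (A : Set Q) (p : Cond Q) : p ≤ p.restr A := restr_le p.1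

lemma Cond.restr_mono {A : Set Q} (hA : Down A) {p q : Cond Q} (h : q ≤ p) :
    q.restr A ≤ p.restr A := Code.restr_mono hA h

lemma Cond.restr_eq_self {A : Set Q} {p : Cond Q} (h : p.supp ⊆ A) : p.restr A ≤ p := by
  change Le p.1 (Code.restr A p.1)
  rw [le_def]
  intro b
  by_cases hb : b ∈ A
  · rw [restr_s hb, restr_k hb, restr_F hb, restr_v hb]
    exact ⟨List.prefix_rfl, fun m hm => ⟨m, hm, rfl, rfl⟩, fun m _ i h1 h2 => by omega⟩
  · have h1 : b ∉ Code.supp p.1 := fun hh => hb (h hh)
    simp only [Code.supp, Set.mem_ofPred_eq, not_or, not_not] at h1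
    rw [h1.1, h1.2]
    exact ⟨List.nil_prefix, fun m hm => by omega, fun m hm => by omega⟩

/-- the reduction property: `P_A` is a complete suborder -/
lemma Cond.exists_over {A : Set Q} (hA : Down A) (p r : Cond Q) (hr : r.supp ⊆ A)
    (h : r ≤ p.restr A) : ∃ q : Cond Q, q ≤ p ∧ q ≤ r ∧ q.supp ⊆ r.supp ∪ p.supp ∧
      (∀ b ∈ A, q.1.s b = r.1.s b) ∧ (∀ b ∉ A, q.1.s b = p.1.s b) ∧
      (∀ b ∉ A, q.1.k b = p.1.k b ∧ q.1.F b = p.1.F b ∧ q.1.v b = p.1.v b) ∧
      q.restr A ≤ r :=
  ⟨⟨over A r.1 p.1, valid_over r.2 p.2⟩, le_over_right hA h, le_over_left hA hr,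
    supp_over_subset, fun b hb => over_s hb, fun b hb => over_s' hb,
    fun b hb => ⟨over_k' hb, over_F' hb, over_v' hb⟩, by
      change Le r.1 (Code.restr A (over A r.1 p.1))
      rw [restr_over le_rfl]
      exact Cond.restr_eq_self (p := r) hr⟩

/-! ### extending a stem -/

open Classical in
/-- replace the stem at `b` -/
noncomputable def setStem (b : Q) (l : List ℕ) (p : Code Q) : Code Q :=
  mk (Function.update p.s b l) p.k p.F p.v

lemma setStem_s_self (b : Q) (l : List ℕ) (p : Code Q) : (setStem b l p).s b = l := by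
  simp [setStem]

lemma setStem_s_ne {b c : Q} (h : c ≠ b) (l : List ℕ) (p : Code Q) :
    (setStem b l p).s c = p.s c := by
  classical
  unfold setStem
  rw [s_mk, Function.update_of_ne h]

lemma supp_setStem (b : Q) (l : List ℕ) (p : Code Q) :
    supp (setStem b l p) ⊆ insert b (supp p) := by
  intro c hc
  by_cases h : c = b
  · exact Set.mem_insert_iff.2 (Or.inl h)
  · right
    have h1 := setStem_s_ne h l p
    have hk : (setStem b l p).k = p.k := rfl
    simpa only [supp, Set.mem_ofPred_eq, h1, hk] using hc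

lemma valid_setStem (b : Q) (l : List ℕ) {p : Code Q} (h : Valid p) : Valid (setStem b l p) :=
  ⟨(h.1.insert b).subset (supp_setStem b l p), h.2.1, h.2.2⟩

lemma restr_setStem {A : Set Q} {b : Q} (hb : b ∉ A) (l : List ℕ) (p : Code Q) :
    Code.restr A (setStem b l p) = Code.restr A p :=
  restr_congr (fun c hc => setStem_s_ne (fun h => hb (by rw [← h]; exact hc)) l p) (fun _ _ => rfl)
    (fun _ _ => rfl) (fun _ _ => rfl)

/-- find a condition below `b` deciding finitely many names at the argument `i` -/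
lemma exists_decide_below (b : Q) (p : Cond Q) (i : ℕ) (n : ℕ) (hn : n ≤ p.1.k b) (r0 : Cond Q)
    (hr0 : r0.supp ⊆ Set.Iio b) :
    ∃ r : Cond Q, r.supp ⊆ Set.Iio b ∧ r ≤ r0 ∧
      ∀ m < n, ∃ j, Le (p.1.F b m i j) r.1 := by
  induction n with
  | zero => exact ⟨r0, hr0, le_rfl, fun m hm => absurd hm (Nat.not_lt_zero m)⟩
  | succ n ih =>
    obtain ⟨r, hr1, hr2, hr3⟩ := ih (by omega)
    obtain ⟨_, hg⟩ := p.2.2.2 b n (by omega) i
    obtain ⟨j, e, he1, he2, he3⟩ := hg r.1 (VB_iff.2 ⟨r.2, hr1⟩)
    rw [VB_iff] at he1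
    let e' : Cond Q := ⟨e, he1.1⟩
    have he' : e' ≤ r0 := le_tr hr2 he2
    refine ⟨e', he1.2, he', ?_⟩
    intro m hm
    rcases Nat.lt_succ_iff_lt_or_eq.1 hm with h | h
    · obtain ⟨j', hj'⟩ := hr3 m h
      exact ⟨j', le_tr hj' he2⟩
    · subst h; exact ⟨j, he3⟩

/-- Extend the stem at `b` by one value, which can be any sufficiently large number. The condition
is unchanged outside `{c | c ≤ b}`, and below `b` it is stronger than the given `r0`. -/
lemma exists_ext_one (b : Q) (p r0 : Cond Q) (hr0 : r0.supp ⊆ Set.Iio b)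
    (hle : r0 ≤ p.restr (Set.Iio b)) :
    ∃ M : ℕ, ∃ r : Cond Q, r.supp ⊆ Set.Iio b ∧ r ≤ r0 ∧ ∀ x, M ≤ x → ∃ q : Cond Q, q ≤ p ∧
      q ≤ r ∧ q.1.s b = p.1.s b ++ [x] ∧ (∀ c, ¬ c < b → c ≠ b → q.1.s c = p.1.s c) ∧
      (∀ c, c < b → q.1.s c = r.1.s c) ∧ q.supp ⊆ insert b (r.supp ∪ p.supp) := by
  obtain ⟨r, hr1, hr2, hr3⟩ := exists_decide_below b p (p.1.s b).length (p.1.k b) le_rfl r0 hr0
  choose! j hj using hr3
  -- the bound
  obtain ⟨M, hM⟩ : ∃ M, ∀ m < p.1.k b, p.1.v b m (p.1.s b).length (j m) ≤ M := by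
    refine ⟨(Finset.range (p.1.k b)).sup fun m => p.1.v b m (p.1.s b).length (j m), ?_⟩
    intro m hm
    exact Finset.le_sup (f := fun m => p.1.v b m (p.1.s b).length (j m)) (Finset.mem_range.2 hm)
  refine ⟨M, r, hr1, hr2, fun x hx => ?_⟩
  have hbb : b ∉ Set.Iio b := fun h => lt_irrefl _ h
  let q0 := over (Set.Iio b) r.1 p.1
  have hq0 : Valid q0 := valid_over r.2 p.2
  let q : Code Q := setStem b (p.1.s b ++ [x]) q0
  have hq : Valid q := valid_setStem b _ hq0
  have hqs : ∀ c, c ≠ b → q.s c = q0.s c := fun c hc => setStem_s_ne hc _ _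
  have hqb : q.s b = p.1.s b ++ [x] := setStem_s_self b _ _
  have hrestr : ∀ c, c ≤ b → Code.restr (Set.Iio c) q = Code.restr (Set.Iio c) r.1 := by
    intro c hc
    have h1 : Code.restr (Set.Iio c) q = Code.restr (Set.Iio c) q0 :=
      restr_setStem (A := Set.Iio c) (b := b)
        (fun h => absurd (lt_of_lt_of_le (Set.mem_Iio.1 h) hc) (lt_irrefl _)) _ _
    rw [h1]
    exact restr_over (fun d hd => lt_of_lt_of_le hd hc)
  have hrp : Le (Code.restr (Set.Iio b) p.1) r.1 := le_tr hle hr2
  refine ⟨⟨q, hq⟩, ?_, ?_, hqb, ?_, ?_, ?_⟩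
  · -- q ≤ p
    change Le p.1 q
    rw [le_def]
    intro c
    by_cases hcb : c < b
    · have hc' : c ∈ Set.Iio b := hcb
      have h1 := hrp
      rw [le_def] at h1
      have h2 := h1 c
      rw [restr_s hc', restr_k hc', restr_F hc', restr_v hc'] at h2
      have e1 : q.s c = r.1.s c := by rw [hqs c hcb.ne]; exact over_s hc'
      have e2 : q.k c = r.1.k c := over_k hc'
      have e3 : q.F c = r.1.F c := over_F hc'
      have e4 : q.v c = r.1.v c := over_v hc'
      rw [e1, e2, e3, e4, hrestr c hcb.le]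
      exact h2
    · have hc' : c ∉ Set.Iio b := hcb
      have e2 : q.k c = p.1.k c := over_k' hc'
      have e3 : q.F c = p.1.F c := over_F' hc'
      have e4 : q.v c = p.1.v c := over_v' hc'
      by_cases hcb' : c = b
      · subst hcb'
        rw [e2, e3, e4, hqb]
        refine ⟨List.prefix_append _ _, fun m hm => ⟨m, hm, rfl, rfl⟩, ?_⟩
        intro m hm i hi1 hi2
        rw [List.length_append, List.length_singleton] at hi2
        have hi : i = (p.1.s c).length := by omega
        subst hi
        refine ⟨j m, ?_, ?_⟩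
        · rw [hrestr c (by exact le_rfl)]
          exact le_tr (hj m hm) (Cond.restr_eq_self (p := r) hr1)
        · have h3 : (p.1.s c ++ [x]).getD (p.1.s c).length 0 = x := by
            simp [List.getD]
          rw [h3]
          exact (hM m hm).trans hx
      · have e1 : q.s c = p.1.s c := by rw [hqs c hcb']; exact over_s' hc'
        rw [e1, e2, e3, e4]
        exact ⟨List.prefix_rfl, fun m hm => ⟨m, hm, rfl, rfl⟩, fun m _ i h1 h2 => by omega⟩
  · -- q ≤ r
    change Le r.1 q
    rw [le_def]
    intro c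
    by_cases hcb : c < b
    · have hc' : c ∈ Set.Iio b := hcb
      have e1 : q.s c = r.1.s c := by rw [hqs c hcb.ne]; exact over_s hc'
      have e2 : q.k c = r.1.k c := over_k hc'
      have e3 : q.F c = r.1.F c := over_F hc'
      have e4 : q.v c = r.1.v c := over_v hc'
      rw [e1, e2, e3, e4]
      exact ⟨List.prefix_rfl, fun m hm => ⟨m, hm, rfl, rfl⟩, fun m _ i h1 h2 => by omega⟩
    · have h1 : c ∉ Code.supp r.1 := fun hh => hcb (hr1 hh)
      simp only [Code.supp, Set.mem_ofPred_eq, not_or, not_not] at h1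
      rw [h1.1, h1.2]
      exact ⟨List.nil_prefix, fun m hm => by omega, fun m hm => by omega⟩
  · intro c hc1 hc2
    change q.s c = _
    rw [hqs c hc2]
    exact over_s' hc1
  · intro c hc
    change q.s c = _
    rw [hqs c hc.ne]
    exact over_s hc
  · exact (supp_setStem b _ _).trans (Set.insert_subset_insert supp_over_subset)

/-- simple form of the extension lemma -/
lemma exists_ext_one' (b : Q) (p : Cond Q) :
    ∃ M : ℕ, ∀ x, M ≤ x → ∃ q : Cond Q, q ≤ p ∧ q.1.s b = p.1.s b ++ [x] ∧
      (∀ c, ¬ c < b → c ≠ b → q.1.s c = p.1.s c) := by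
  obtain ⟨M, r, _, _, h⟩ := exists_ext_one b p (p.restr (Set.Iio b))
    (by
      intro c hc
      have h2 : c ∈ Code.supp (Code.restr (Set.Iio b) p.1) := hc
      rw [supp_restr] at h2
      exact h2.2) le_rfl
  refine ⟨M, fun x hx => ?_⟩
  obtain ⟨q, h1, _, h2, h3, _⟩ := h x hx
  exact ⟨q, h1, h2, h3⟩

/-- arbitrarily long stems are dense -/
lemma exists_long_stem (b : Q) (n : ℕ) (p : Cond Q) : ∃ q ≤ p, n ≤ (q.1.s b).length := by
  induction n with
  | zero => exact ⟨p, le_rfl, Nat.zero_le _⟩
  | succ n ih =>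
    obtain ⟨q, hq, hn⟩ := ih
    obtain ⟨M, h⟩ := exists_ext_one' b q
    obtain ⟨r, hr, hs, _⟩ := h M le_rfl
    refine ⟨r, hr.trans hq, ?_⟩
    rw [hs, List.length_append, List.length_singleton]
    omega

/-! ### adding a name -/

open Classical in
/-- list one more name at `b` -/
noncomputable def addName (b : Q) (c : ℕ → ℕ → Code Q) (w : ℕ → ℕ → ℕ) (p : Code Q) : Code Q :=
  mk p.s (Function.update p.k b (p.k b + 1))
    (Function.update p.F b (Function.update (p.F b) (p.k b) c))
    (Function.update p.v b (Function.update (p.v b) (p.k b) w))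

lemma exists_addName (b : Q) (c : ℕ → ℕ → Code Q) (w : ℕ → ℕ → ℕ) (hc : GoodAt (VB b) c)
    (p : Cond Q) : ∃ q : Cond Q, q ≤ p ∧ q.1.s = p.1.s ∧
      ∃ m < q.1.k b, q.1.F b m = c ∧ q.1.v b m = w := by
  classical
  have hkb : (addName b c w p.1).k b = p.1.k b + 1 := by simp [addName]
  have hkne : ∀ d, d ≠ b → (addName b c w p.1).k d = p.1.k d := by
    intro d hd; unfold addName; rw [k_mk, Function.update_of_ne hd]
  have hFb : (addName b c w p.1).F b = Function.update (p.1.F b) (p.1.k b) c := by simp [addName]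
  have hvb : (addName b c w p.1).v b = Function.update (p.1.v b) (p.1.k b) w := by simp [addName]
  have hFne : ∀ d, d ≠ b → (addName b c w p.1).F d = p.1.F d := by
    intro d hd; unfold addName; rw [F_mk, Function.update_of_ne hd]
  have hvne : ∀ d, d ≠ b → (addName b c w p.1).v d = p.1.v d := by
    intro d hd; unfold addName; rw [v_mk, Function.update_of_ne hd]
  have hs : (addName b c w p.1).s = p.1.s := rfl
  have hsupp : supp (addName b c w p.1) ⊆ insert b (supp p.1) := by
    intro d hd
    by_cases h : d = b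
    · exact Set.mem_insert_iff.2 (Or.inl h)
    · right
      simpa only [supp, Set.mem_ofPred_eq, hs, hkne d h] using hd
  have hval : Valid (addName b c w p.1) := by
    refine ⟨(p.2.1.insert b).subset hsupp, ?_, ?_⟩
    · intro d m hm
      by_cases h : d = b
      · subst h
        rw [hkb] at hm
        rw [hFb, hvb, Function.update_of_ne (by omega), Function.update_of_ne (by omega)]
        exact p.2.2.1 d m (by omega)
      · rw [hkne d h] at hm
        rw [hFne d h, hvne d h]
        exact p.2.2.1 d m hm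
    · intro d m hm
      by_cases h : d = b
      · subst h
        rw [hkb] at hm
        rw [hFb]
        by_cases h2 : m = p.1.k d
        · subst h2; rw [Function.update_self]; exact hc
        · rw [Function.update_of_ne h2]; exact p.2.2.2 d m (by omega)
      · rw [hkne d h] at hm
        rw [hFne d h]
        exact p.2.2.2 d m hm
  refine ⟨⟨addName b c w p.1, hval⟩, ?_, hs, p.1.k b, ?_, ?_, ?_⟩
  · change Le p.1 (addName b c w p.1)
    rw [le_def]
    intro d
    rw [hs]
    refine ⟨List.prefix_rfl, ?_, fun m _ i h1 h2 => by omega⟩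
    intro m hm
    by_cases h : d = b
    · subst h
      refine ⟨m, by rw [hkb]; omega, ?_, ?_⟩
      · rw [hFb, Function.update_of_ne (by omega)]
      · rw [hvb, Function.update_of_ne (by omega)]
    · exact ⟨m, by rw [hkne d h]; exact hm, by rw [hFne d h], by rw [hvne d h]⟩
  · change p.1.k b < (addName b c w p.1).k b
    rw [hkb]; omega
  · change (addName b c w p.1).F b (p.1.k b) = c
    rw [hFb, Function.update_self]
  · change (addName b c w p.1).v b (p.1.k b) = w
    rw [hvb, Function.update_self]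

/-! ### the countable chain condition -/

/-- A family of finite partial functions into a countable set, any two of which disagree somewhere,
is countable. -/
lemma countable_of_disagree {α β : Type*} [Countable β] (n : ℕ)
    (S : Set (Finset α × (α → β))) (hcard : ∀ x ∈ S, x.1.card ≤ n)
    (hS : ∀ x ∈ S, ∀ y ∈ S, x ≠ y → ∃ a ∈ x.1, a ∈ y.1 ∧ x.2 a ≠ y.2 a) : S.Countable := by
  classical
  induction n generalizing S with
  | zero =>
    apply Set.Subsingleton.countable
    intro x hx y hy
    by_contra hne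
    obtain ⟨a, ha, _⟩ := hS x hx y hy hne
    have := Finset.card_pos.2 ⟨a, ha⟩
    have := hcard x hx
    omega
  | succ n ih =>
    by_cases hne : S.Nonempty
    · obtain ⟨x0, hx0⟩ := hne
      -- `S ⊆ {x0} ∪ ⋃_{a ∈ x0.1, v} S_{a,v}`
      let T : α → β → Set (Finset α × (α → β)) := fun a v => {x ∈ S | a ∈ x.1 ∧ x.2 a = v}
      have hT : ∀ a v, (T a v).Countable := by
        intro a v
        let f : Finset α × (α → β) → Finset α × (α → β) := fun x => (x.1.erase a, x.2)
        have h1 : (f '' T a v).Countable := by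
          apply ih
          · rintro _ ⟨x, hx, rfl⟩
            have h2 := hcard x hx.1
            have h3 := Finset.card_erase_of_mem hx.2.1
            change (x.1.erase a).card ≤ n
            omega
          · rintro _ ⟨x, hx, rfl⟩ _ ⟨y, hy, rfl⟩ hxy
            have hxy' : x ≠ y := fun h => hxy (by rw [h])
            obtain ⟨c, hc1, hc2, hc3⟩ := hS x hx.1 y hy.1 hxy'
            have hca : c ≠ a := by
              rintro rfl
              exact hc3 (hx.2.2.trans hy.2.2.symm)
            exact ⟨c, Finset.mem_erase.2 ⟨hca, hc1⟩, Finset.mem_erase.2 ⟨hca, hc2⟩, hc3⟩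
        have hinj : Set.InjOn f (T a v) := by
          intro x hx y hy hxy
          have hxy' : (x.1.erase a, x.2) = (y.1.erase a, y.2) := hxy
          rw [Prod.mk.injEq] at hxy'
          obtain ⟨e1, e2⟩ := hxy'
          have e3 : x.1 = y.1 := by
            rw [← Finset.insert_erase hx.2.1, e1, Finset.insert_erase hy.2.1]
          exact Prod.ext e3 e2
        exact Set.countable_of_injective_of_countable_image hinj h1
      have hsub : S ⊆ {x0} ∪ ⋃ a ∈ x0.1, ⋃ v, T a v := by
        intro x hx
        by_cases h : x = x0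
        · left; exact h
        · right
          obtain ⟨a, ha1, ha2, _⟩ := hS x hx x0 hx0 h
          simp only [Set.mem_iUnion]
          exact ⟨a, ha2, x.2 a, hx, ha1, rfl⟩
      refine Set.Countable.mono hsub ((Set.countable_singleton x0).union ?_)
      exact Set.Countable.biUnion (Finset.countable_toSet _) fun a _ =>
        Set.countable_iUnion fun v => hT a v
    · rw [Set.not_nonempty_iff_eq_empty] at hne
      rw [hne]; exact Set.countable_empty

/-- The countable chain condition. -/
theorem ccc (A : Set (Cond Q)) (hA : ∀ p ∈ A, ∀ q ∈ A, ∀ r, r ≤ p → r ≤ q → p = q) :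
    A.Countable := by
  classical
  let f : Cond Q → Finset Q × (Q → List ℕ) := fun p => (p.supp_finite.toFinset, p.1.s)
  have hdis : ∀ p ∈ A, ∀ q ∈ A, p ≠ q → ∃ a ∈ (f p).1, a ∈ (f q).1 ∧ (f p).2 a ≠ (f q).2 a := by
    intro p hp q hq hpq
    by_contra hcon
    push Not at hcon
    have h1 : SameStems p.1 q.1 := by
      intro b hb1 hb2
      exact hcon b (p.supp_finite.mem_toFinset.2 hb1) (q.supp_finite.mem_toFinset.2 hb2)
    obtain ⟨r, hr1, hr2⟩ := exists_le_of_sameStems h1
    exact hpq (hA p hp q hq r hr1 hr2)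
  have hinj : Set.InjOn f A := by
    intro p hp q hq hpq
    by_contra hne
    obtain ⟨a, _, _, h⟩ := hdis p hp q hq hne
    exact h (by rw [hpq])
  have hc : ∀ n, {x ∈ f '' A | x.1.card ≤ n}.Countable := by
    intro n
    apply countable_of_disagree n
    · exact fun x hx => hx.2
    · rintro _ ⟨⟨p, hp, rfl⟩, _⟩ _ ⟨⟨q, hq, rfl⟩, _⟩ hne
      exact hdis p hp q hq (fun h => hne (by rw [h]))
  have himg : (f '' A).Countable := by
    have : f '' A ⊆ ⋃ n, {x ∈ f '' A | x.1.card ≤ n} := by
      intro x hx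
      exact Set.mem_iUnion.2 ⟨x.1.card, hx, le_rfl⟩
    exact (Set.countable_iUnion hc).mono this
  exact Set.countable_of_injective_of_countable_image hinj himg

end Pool.Agent.Hechler
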